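import Pool.Agent.R186.Lions.Two

/-!
# Two lions can sweep `K_{2,3}`, but not monotonically
-/

set_option autoImplicit false

namespace Pool.Agent.Results.MP_95728c_co.NonMonotone

open Pool.Agent.R186.Lions

/-- The complete bipartite graph `K_{2,3}` on the vertices `0, …, 4`, with the parts `{0, 1, 2}`
and `{3, 4}`. -/
def K23 : SimpleGraph (Fin 5) where
  Adj u v := (u < 3 ∧ 3 ≤ v) ∨ (v < 3 ∧ 3 ≤ u)
  symm := ⟨fun _ _ h => h.symm⟩
  loopless := ⟨fun u h => by omega⟩

def adj (u v : Fin 5) : Bool := (decide (u < 3) && decide (3 ≤ v)) || (decide (v < 3) && decide (3 ≤ u))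

theorem adj_iff (u v : Fin 5) : adj u v = true ↔ K23.Adj u v := by
  simp [adj, K23]

/-- positions of a sweep -/
def P (t : ℕ) : Fin 5 × Fin 5 := [((0 : Fin 5), (3 : Fin 5)), (4, 1), (2, 3), (4, 0)].getD t (4, 0)

/-- the family of the states reachable by monotone moves -/
def F : ℕ := 0x10000170000000010000000040000000200001700000000000100000010000000040000000200001000000000100000000010000000400000002000040000000004000000004000000004000000080002000000000200000000200000000800000002

/-- **Theorem.** The graph `K_{2,3}` admits a sweep by two lions but no monotonic sweep by two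
lions.  So a graph which admits a sweep by `k` lions need not admit a monotonic one. -/
theorem result :
    (CanSweep K23 2 ∧ ¬ CanSweepMonotonically K23 2) ∧
    ¬ ∀ (n : ℕ) (G : SimpleGraph (Fin n)) (k : ℕ), 1 ≤ k → CanSweep G k →
      CanSweepMonotonically G k := by
  have h1 : CanSweep K23 2 := canSweep_of_run adj_iff (P := P) (T := 3) (by decide +kernel)
  have h2 : ¬ CanSweepMonotonically K23 2 :=
    not_canSweepMonotonically adj_iff (F := F) (by decide +kernel)
  exact ⟨⟨h1, h2⟩, fun h => h2 (h 5 K23 2 (by norm_num) h1)⟩

end Pool.Agent.Results.MP_95728c_co.NonMonotone
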